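import Pool.Agent.H588R2.BicMain

/-!
# One-Sided k-Biclique has no `n^{k-o(1)}` time lower bound

For every fixed `k ≥ 1` a deterministic word-RAM program decides the promise problem
One-Sided `k`-Biclique (completeness `⌈n^{6/(k+6)}⌉`, soundness `(k+6)!`) in time
`O(n^{k+2-6k/(k+6)})`.  For large `k` this is `O(n^{k-3.9})`, so the `n^{k-o(1)}` lower
bound of Q2 is false outright.
-/

namespace Pool.Agent.Results.MP_64f491_lc.FastPrunedSearch

open Pool.Agent.H588R2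

/-- A bipartite graph with sides `L = Fin a`, `R = Fin b` is given by its bipartite adjacency
matrix `E`. `commonNbrs E A` is the set of common neighbours in `R` of a set `A` of vertices
of `L`. -/
def commonNbrs {a b : ℕ} (E : Fin a → Fin b → Bool) (A : Finset (Fin a)) : Finset (Fin b) :=
  Finset.univ.filter (fun r => ∀ l ∈ A, E l r = true)

/-- Yes case: some `k` vertices of `L` have at least `⌈n^{6/(k+6)}⌉` common neighbours in `R`,
where `n = |L| + |R|`. -/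
def IsYes (k : ℕ) {a b : ℕ} (E : Fin a → Fin b → Bool) : Prop :=
  ∃ A : Finset (Fin a), A.card = k ∧
    ⌈((a + b : ℕ) : ℝ) ^ ((6 : ℝ) / ((k : ℝ) + 6))⌉₊ ≤ (commonNbrs E A).card

/-- No case: every `k` vertices of `L` have at most `(k+6)!` common neighbours in `R`. -/
def IsNo (k : ℕ) {a b : ℕ} (E : Fin a → Fin b → Bool) : Prop :=
  ∀ A : Finset (Fin a), A.card = k → (commonNbrs E A).card ≤ (k + 6).factorial

/-- Initial configuration of the word RAM: register `0` holds `|L| = a`, register `1` holds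
`|R| = b`, the other registers are zero, and the memory holds the `a × b` adjacency matrix row
by row (cell `l * b + r` is `1` if `l` and `r` are adjacent, else `0`), followed by zeros. -/
def inputConfig {a b : ℕ} (E : Fin a → Fin b → Bool) : Config where
  pc := 0
  st :=
    { reg := fun i => if i = 0 then a else if i = 1 then b else 0
      mem := fun x =>
        if h : x / b < a ∧ x % b < b then
          (if E ⟨x / b, h.1⟩ ⟨x % b, h.2⟩ = true then 1 else 0)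
        else 0 }

/-- One-Sided `k`-Biclique (for this fixed `k`) is decided in time `O(n^e)` by a deterministic
word RAM with words of `O(log n)` bits: there are one program `P` and constants `c`, `C` such
that on every graph with `n = |L| + |R| ≥ 1` vertices the machine with words of
`c (⌊log₂ n⌋ + 1)` bits halts within `C n^e` steps, with output `1` in the Yes case and with
output `0` in the No case. (For the finitely many `n` with `⌈n^{6/(k+6)}⌉ ≤ (k+6)!` the two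
cases overlap; on graphs in both cases the answer required here is `1`.) -/
def HasAlgorithm (k : ℕ) (e : ℝ) : Prop :=
  ∃ (P : List Instr) (c : ℕ) (C : ℝ), ∀ (a b : ℕ) (E : Fin a → Fin b → Bool), 1 ≤ a + b →
    (IsYes k E → HaltsWithin (c * (Nat.log 2 (a + b) + 1)) P (inputConfig E)
      (C * ((a + b : ℕ) : ℝ) ^ e) 1) ∧
    (IsNo k E → ¬ IsYes k E → HaltsWithin (c * (Nat.log 2 (a + b) + 1)) P (inputConfig E)
      (C * ((a + b : ℕ) : ℝ) ^ e) 0)

/-- The `n^{k-o(1)}` lower bound of Q2, in the sense fixed in the problem: for every `ε > 0` and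
every sufficiently large fixed `k`, no algorithm runs in time `O(n^{k-ε})`. -/
def TightLowerBound : Prop :=
  ∀ ε : ℝ, 0 < ε → ∃ k₀ : ℕ, ∀ k : ℕ, k₀ ≤ k → ¬ HasAlgorithm k ((k : ℝ) - ε)

/-! ## Proofs -/

open Bic Finset

/-- The adjacency relation on natural numbers. -/
def extE {a b : ℕ} (E : Fin a → Fin b → Bool) (l r : ℕ) : Bool :=
  if h : l < a ∧ r < b then E ⟨l, h.1⟩ ⟨r, h.2⟩ else false

theorem cgS_map {a b : ℕ} (E : Fin a → Fin b → Bool) (A : Finset (Fin a)) :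
    cgS b (extE E) (A.map Fin.valEmbedding) = (commonNbrs E A).card := by
  unfold cgS commonNbrs
  rw [← card_map (f := Fin.valEmbedding)]
  congr 1
  ext r
  simp only [mem_filter, mem_range, mem_map, mem_univ, true_and, Fin.valEmbedding_apply]
  constructor
  · rintro ⟨hr, h⟩
    refine ⟨⟨r, hr⟩, ?_, rfl⟩
    intro l hl
    have := h l ⟨l, hl, rfl⟩
    simpa [extE, hr] using this
  · rintro ⟨r', h, rfl⟩
    refine ⟨r'.2, ?_⟩
    rintro l ⟨l', hl', rfl⟩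
    simpa [extE] using h l' hl'

theorem exists_map {a : ℕ} (S : Finset ℕ) (hS : S ⊆ range a) :
    ∃ A : Finset (Fin a), A.map Fin.valEmbedding = S ∧ A.card = S.card := by
  refine ⟨S.attachFin (fun x hx => by simpa using hS hx), ?_, by simp⟩
  ext x
  simp only [mem_map, mem_attachFin, Fin.valEmbedding_apply]
  constructor
  · rintro ⟨y, hy, rfl⟩; exact hy
  · intro hx; exact ⟨⟨x, by simpa using hS hx⟩, hx, rfl⟩

theorem isYes_iff {k a b : ℕ} (E : Fin a → Fin b → Bool) :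
    IsYes k E ↔ ∃ S : Finset ℕ, S ⊆ range a ∧ S.card = k ∧
      ⌈((a + b : ℕ) : ℝ) ^ ((6 : ℝ) / ((k : ℝ) + 6))⌉₊ ≤ cgS b (extE E) S := by
  constructor
  · rintro ⟨A, hA, h⟩
    refine ⟨A.map Fin.valEmbedding, ?_, by rw [card_map, hA], by rw [cgS_map]; exact h⟩
    intro x hx
    simp only [mem_map, Fin.valEmbedding_apply] at hx
    obtain ⟨y, _, rfl⟩ := hx
    simp
  · rintro ⟨S, hS, hc, h⟩
    obtain ⟨A, rfl, hA⟩ := exists_map S hS
    exact ⟨A, by rw [hA, hc], by rw [← cgS_map]; exact h⟩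

theorem ceil_le_iff {n k : ℕ} (d : ℕ) :
    ⌈(n : ℝ) ^ ((6 : ℝ) / ((k : ℝ) + 6))⌉₊ ≤ d ↔ n ^ 6 ≤ d ^ (k + 6) := by
  rw [Nat.ceil_le]
  have hn : (0 : ℝ) ≤ n := Nat.cast_nonneg n
  have h1 : ((n : ℝ) ^ ((6 : ℝ) / ((k : ℝ) + 6))) ^ (k + 6) = (n : ℝ) ^ 6 := by
    rw [← Real.rpow_natCast, ← Real.rpow_mul hn]
    have : (6 : ℝ) / ((k : ℝ) + 6) * ((k + 6 : ℕ) : ℝ) = ((6 : ℕ) : ℝ) := by
      push_cast
      field_simp
    rw [this, Real.rpow_natCast]
  have h2 : (0 : ℝ) ≤ (n : ℝ) ^ ((6 : ℝ) / ((k : ℝ) + 6)) := Real.rpow_nonneg hn _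
  rw [← pow_le_pow_iff_left₀ h2 (Nat.cast_nonneg d) (by omega : k + 6 ≠ 0), h1]
  exact_mod_cast Iff.rfl

theorem word_bound (k Ck n : ℕ) :
    5 * (Ck + 1) * (n + 1) ^ (k + 6) ≤ 2 ^ ((k + 6 + 5 * (Ck + 1)) * (Nat.log 2 n + 1)) := by
  have h1 : n + 1 ≤ 2 ^ (Nat.log 2 n + 1) := Nat.lt_pow_succ_log_self (by norm_num) n
  have h2 : 5 * (Ck + 1) ≤ 2 ^ (5 * (Ck + 1)) := Nat.lt_two_pow_self.le
  calc 5 * (Ck + 1) * (n + 1) ^ (k + 6)
      ≤ 2 ^ (5 * (Ck + 1)) * (2 ^ (Nat.log 2 n + 1)) ^ (k + 6) :=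
        Nat.mul_le_mul h2 (Nat.pow_le_pow_left h1 _)
    _ = 2 ^ (5 * (Ck + 1) + (Nat.log 2 n + 1) * (k + 6)) := by rw [← pow_mul, ← pow_add]
    _ ≤ 2 ^ ((k + 6 + 5 * (Ck + 1)) * (Nat.log 2 n + 1)) := by
        apply Nat.pow_le_pow_right (by norm_num)
        have : 5 * (Ck + 1) * 1 ≤ 5 * (Ck + 1) * (Nat.log 2 n + 1) :=
          Nat.mul_le_mul_left _ (by omega)
        nlinarith

/-- The constant in the counting bound. -/
def Cc (k : ℕ) : ℕ := k * ((2 * k) ^ k * (1 + 4 ^ k + (k + 6).factorial ^ k))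

theorem real_bound (n Ck k K t t' e D : ℕ) (hn : 1 ≤ n) (hk : 1 ≤ k)
    (hD : D = ⌈(n : ℝ) ^ ((6 : ℝ) / ((k : ℝ) + 6))⌉₊)
    (ht : t ≤ t' + (k + 20)) (ht' : t' * D ^ k ≤ K * (n + 1) ^ 2 * (D ^ k + e))
    (he : e ≤ 2 * (Ck * n ^ k) + 1 + n ^ k) :
    (t : ℝ) ≤ (4 * K * (2 * Ck + 3) + (k + 20)) *
      (n : ℝ) ^ ((k : ℝ) + 2 - 6 * k / ((k : ℝ) + 6)) := by
  have hn1 : (1 : ℝ) ≤ n := by exact_mod_cast hn
  have hn0 : (0 : ℝ) < n := by linarith
  have hk6 : (0 : ℝ) < (k : ℝ) + 6 := by positivity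
  set x : ℝ := (k : ℝ) - 6 * k / ((k : ℝ) + 6) with hx
  have hx0 : 0 ≤ x := by
    have : x = (k : ℝ) ^ 2 / ((k : ℝ) + 6) := by rw [hx]; field_simp; ring
    rw [this]; positivity
  have hDr : (n : ℝ) ^ ((6 : ℝ) / ((k : ℝ) + 6)) ≤ D := by rw [hD]; exact Nat.le_ceil _
  have hDk : (n : ℝ) ^ (6 * k / ((k : ℝ) + 6)) ≤ (D : ℝ) ^ k := by
    calc (n : ℝ) ^ (6 * k / ((k : ℝ) + 6))
        = ((n : ℝ) ^ ((6 : ℝ) / ((k : ℝ) + 6))) ^ k := by
          rw [← Real.rpow_natCast, ← Real.rpow_mul hn0.le]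
          congr 1; ring
      _ ≤ (D : ℝ) ^ k := pow_le_pow_left₀ (Real.rpow_nonneg hn0.le _) hDr _
  have hDk0 : (0 : ℝ) < (D : ℝ) ^ k := lt_of_lt_of_le (Real.rpow_pos_of_pos hn0 _) hDk
  have hnk : (n : ℝ) ^ k ≤ (n : ℝ) ^ x * (D : ℝ) ^ k := by
    calc (n : ℝ) ^ k = (n : ℝ) ^ x * (n : ℝ) ^ (6 * k / ((k : ℝ) + 6)) := by
          rw [← Real.rpow_add hn0, hx, ← Real.rpow_natCast]
          congr 1; ring
      _ ≤ (n : ℝ) ^ x * (D : ℝ) ^ k :=
          mul_le_mul_of_nonneg_left hDk (Real.rpow_nonneg hn0.le _)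
  have hx1 : (1 : ℝ) ≤ (n : ℝ) ^ x := Real.one_le_rpow hn1 hx0
  have her : (e : ℝ) ≤ (2 * Ck + 2) * ((n : ℝ) ^ x * (D : ℝ) ^ k) := by
    have h1 : (e : ℝ) ≤ 2 * (Ck * (n : ℝ) ^ k) + 1 + (n : ℝ) ^ k := by exact_mod_cast he
    have h2 : (1 : ℝ) ≤ (n : ℝ) ^ k := one_le_pow₀ hn1
    have h3 : (0 : ℝ) ≤ 2 * (Ck : ℝ) + 2 := by positivity
    calc (e : ℝ) ≤ (2 * Ck + 2) * (n : ℝ) ^ k := by linarith
      _ ≤ _ := mul_le_mul_of_nonneg_left hnk h3
  have ht1 : (t' : ℝ) * (D : ℝ) ^ k ≤ K * ((n : ℝ) + 1) ^ 2 * ((D : ℝ) ^ k + e) := by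
    exact_mod_cast ht'
  have hn2 : ((n : ℝ) + 1) ^ 2 ≤ 4 * (n : ℝ) ^ 2 := by nlinarith
  have ht2 : (t' : ℝ) * (D : ℝ) ^ k ≤
      (4 * K * (2 * Ck + 3) * ((n : ℝ) ^ 2 * (n : ℝ) ^ x)) * (D : ℝ) ^ k := by
    have h3 : (D : ℝ) ^ k + e ≤ (2 * Ck + 3) * ((n : ℝ) ^ x * (D : ℝ) ^ k) := by
      have : (D : ℝ) ^ k ≤ (n : ℝ) ^ x * (D : ℝ) ^ k := by nlinarith
      linarith
    calc (t' : ℝ) * (D : ℝ) ^ k ≤ K * ((n : ℝ) + 1) ^ 2 * ((D : ℝ) ^ k + e) := ht1
      _ ≤ K * (4 * (n : ℝ) ^ 2) * ((2 * Ck + 3) * ((n : ℝ) ^ x * (D : ℝ) ^ k)) := by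
          apply mul_le_mul
          · exact mul_le_mul_of_nonneg_left hn2 (Nat.cast_nonneg K)
          · exact h3
          · positivity
          · positivity
      _ = _ := by ring
  have ht3 : (t' : ℝ) ≤ 4 * K * (2 * Ck + 3) * ((n : ℝ) ^ 2 * (n : ℝ) ^ x) :=
    le_of_mul_le_mul_right ht2 hDk0
  have hexp : (n : ℝ) ^ ((k : ℝ) + 2 - 6 * k / ((k : ℝ) + 6)) = (n : ℝ) ^ 2 * (n : ℝ) ^ x := by
    rw [← Real.rpow_natCast, ← Real.rpow_add hn0, hx]
    congr 1; push_cast; ring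
  rw [hexp]
  have h1 : (1 : ℝ) ≤ (n : ℝ) ^ 2 * (n : ℝ) ^ x := by
    have := one_le_pow₀ (n := 2) hn1
    nlinarith
  have ht4 : (t : ℝ) ≤ t' + (k + 20) := by exact_mod_cast ht
  have hk20 : (0 : ℝ) ≤ (k : ℝ) + 20 := by positivity
  nlinarith

theorem hasAlgorithm (k : ℕ) (hk : 1 ≤ k) :
    HasAlgorithm k ((k : ℝ) + 2 - 6 * k / ((k : ℝ) + 6)) := by
  set Ck := Cc k with hCk
  set K := 5 * k + 40 with hK
  refine ⟨(mainCode k Ck).compile 0 ++ [Instr.halt], k + 6 + 5 * (Ck + 1),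
    4 * K * (2 * Ck + 3) + (k + 20), ?_⟩
  intro a b E hab
  set n := a + b with hn
  set D := ⌈(n : ℝ) ^ ((6 : ℝ) / ((k : ℝ) + 6))⌉₊ with hD
  set w := (k + 6 + 5 * (Ck + 1)) * (Nat.log 2 n + 1) with hw
  have hM : 5 * (Ck + 1) * (a + b + 1) ^ (k + 6) ≤ 2 ^ w := word_bound k Ck n
  have hthr : ∀ d, D ≤ d ↔ n ^ 6 ≤ d ^ (k + 6) := fun d => ceil_le_iff d
  have hmem : ∀ l < a, ∀ r < b, (inputConfig E).st.mem (l * b + r) =
      if extE E l r = true then 1 else 0 := by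
    intro l hl r hr
    have e1 : (l * b + r) / b = l := by
      rw [Nat.mul_comm, Nat.mul_add_div (by omega), Nat.div_eq_of_lt hr, Nat.add_zero]
    have e2 : (l * b + r) % b = r := by
      rw [Nat.mul_comm, Nat.mul_add_mod, Nat.mod_eq_of_lt hr]
    simp only [inputConfig, extE, e1, e2, hl, hr, and_self, dite_true]
  have hDk : ∀ A, (a + b) ^ 6 ≤ cgE b (extE E) A ^ (k + 6) → D ^ k ≤ cgE b (extE E) A ^ k := by
    intro A hA
    exact Nat.pow_le_pow_left ((hthr _).mpr hA) _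
  obtain ⟨s', t, hex, e, t', hF, hout, ht, ht'⟩ := runs_main (w := w) (a := a) (b := b) (k := k)
    (Ck := Ck) (Dk := D ^ k) (K := K) (E := extE E) hM (inputConfig E).st rfl rfl hmem hDk
    (by omega)
  have he : e ≤ 2 * (Ck * n ^ k) + 1 + n ^ k := by
    rw [← hF]
    have := F_cap (a := a) (k := k) (n6 := n ^ 6) (bd := Ck * n ^ k) (b := b) (E := extE E)
      (X := n ^ k) (Nat.pow_le_pow_left (by omega) _) k [] 0 0
    simpa using this
  have htime := real_bound n Ck k K t t' e D hab hk hD ht ht' he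
  have hAt : At ((mainCode k Ck).compile 0 ++ [Instr.halt]) 0 ((mainCode k Ck).compile 0) := by
    intro i hi
    rw [Nat.zero_add, List.getElem?_append_left hi]
  have hrun := compile_correct w _ hex 0 hAt
  have hhalt : ((mainCode k Ck).compile 0 ++ [Instr.halt])[0 + (mainCode k Ck).size]? =
      some Instr.halt := by
    rw [Nat.zero_add, ← Cmd.length_compile _ 0, List.getElem?_append_right le_rfl]
    simp
  have hfin : ∀ out, s'.reg 0 = out → HaltsWithin w ((mainCode k Ck).compile 0 ++ [Instr.halt])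
      (inputConfig E) ((4 * K * (2 * Ck + 3) + (k + 20)) *
      (n : ℝ) ^ ((k : ℝ) + 2 - 6 * k / ((k : ℝ) + 6))) out := by
    intro out ho
    refine ⟨t, htime, ?_, ?_⟩
    · left
      have : (inputConfig E) = ⟨0, (inputConfig E).st⟩ := rfl
      rw [this, hrun]
      exact hhalt
    · have : (inputConfig E) = ⟨0, (inputConfig E).st⟩ := rfl
      rw [this, hrun]
      exact ho
  constructor
  · intro hyes
    rw [isYes_iff] at hyes
    obtain ⟨S, hS, hc, hle⟩ := hyes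
    apply hfin
    rw [hout, if_pos]
    rw [← hF]
    obtain ⟨m, rfl⟩ : ∃ m, k = m + 1 := ⟨k - 1, by omega⟩
    apply F_complete m [] 0 0 S
    · rw [← range_eq_Ico]; exact hS
    · exact hc
    · rw [List.toFinset_nil, union_empty]
      exact (hthr _).mp hle
  · intro hno hnyes
    apply hfin
    rw [hout, if_neg]
    rw [not_lt, ← hF]
    rw [isYes_iff] at hnyes
    have hnw : ∀ S : Finset ℕ, S ⊆ range a → S.card = k → cgS b (extE E) S ^ (k + 6) < n ^ 6 := by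
      intro S hS hc
      by_contra hcon
      exact hnyes ⟨S, hS, hc, (hthr _).mpr (not_lt.mp hcon)⟩
    have h1 := F_sound (bd := Ck * n ^ k) hnw k [] 0 0 (by simp) (by omega) (by simp) (by simp)
    rw [Nat.zero_add] at h1
    refine h1.trans ?_
    apply Wt_bound hab
    intro S hS hc
    obtain ⟨A, rfl, hA⟩ := exists_map S hS
    rw [cgS_map]
    exact hno A (by rw [hA, hc])

theorem HasAlgorithm.mono {k : ℕ} {e e' : ℝ} (h : HasAlgorithm k e) (he : e ≤ e') :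
    HasAlgorithm k e' := by
  obtain ⟨P, c, C, h⟩ := h
  refine ⟨P, c, |C|, ?_⟩
  intro a b E hab
  have hn1 : (1 : ℝ) ≤ ((a + b : ℕ) : ℝ) := by exact_mod_cast hab
  have hle : C * ((a + b : ℕ) : ℝ) ^ e ≤ |C| * ((a + b : ℕ) : ℝ) ^ e' :=
    mul_le_mul (le_abs_self C) (Real.rpow_le_rpow_of_exponent_le hn1 he)
      (Real.rpow_nonneg (by linarith) _) (abs_nonneg C)
  obtain ⟨h1, h2⟩ := h a b E hab
  constructor
  · intro hy
    obtain ⟨t, ht, hh⟩ := h1 hy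
    exact ⟨t, ht.trans hle, hh⟩
  · intro hn hy
    obtain ⟨t, ht, hh⟩ := h2 hn hy
    exact ⟨t, ht.trans hle, hh⟩

/-- For every fixed `k ≥ 1`, One-Sided `k`-Biclique is decided by a deterministic word RAM in
time `O(n^{k + 2 - 6k/(k+6)})`; consequently the `n^{k-o(1)}` lower bound of Q2 is false. -/
theorem result :
    (∀ k : ℕ, 1 ≤ k → HasAlgorithm k ((k : ℝ) + 2 - 6 * k / ((k : ℝ) + 6))) ∧
    ¬ TightLowerBound := by
  refine ⟨hasAlgorithm, ?_⟩
  intro h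
  obtain ⟨k₀, hk₀⟩ := h 1 one_pos
  apply hk₀ (max k₀ 6) (le_max_left _ _)
  have h6 : (6 : ℝ) ≤ ((max k₀ 6 : ℕ) : ℝ) := by exact_mod_cast le_max_right k₀ 6
  have hk1 : 1 ≤ max k₀ 6 := le_trans (by norm_num) (le_max_right k₀ 6)
  apply (hasAlgorithm _ hk1).mono
  have hpos : (0 : ℝ) < ((max k₀ 6 : ℕ) : ℝ) + 6 := by linarith
  have : 3 ≤ 6 * ((max k₀ 6 : ℕ) : ℝ) / (((max k₀ 6 : ℕ) : ℝ) + 6) := by
    rw [le_div_iff₀ hpos]; linarith
  linarith

end Pool.Agent.Results.MP_64f491_lc.FastPrunedSearch
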